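import Mathlib
import Pool.Agent.Helper70.GameDefs
import Pool.Agent.Helper70.StructureThm

set_option autoImplicit false

namespace Pool.Agent.Results.MP_6966bf_co.BreakerStructure

open Pool.Agent.Helper70

/-- Structure of the graphs on which Breaker wins the `(1 : b)` game with target `χ(M) ≥ r`: such a
graph is a union of boundedly many subgraphs, each of which is a Breaker win and is
`(r - 1)`-colourable up to `ε`. -/
theorem result (b r : ℕ) (hb : 1 ≤ b) (hr : 3 ≤ r) (ε : ℝ) (hε : 0 < ε)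
    (V : Type) [Fintype V] (G : SimpleGraph V)
    (hG : ¬ MakerWins G b
      (fun M => (r : ℕ∞) ≤ (SimpleGraph.fromEdgeSet M).chromaticNumber) ∅ ∅) :
    ∃ H : Fin (2 * ⌊4 * b * Real.logb 2 ((r - 1 : ℕ) : ℝ) / ε⌋₊ + 2) → SimpleGraph V,
      (⨆ j, H j) = G ∧
      ∀ j, ¬ MakerWins (H j) b
          (fun M => (r : ℕ∞) ≤ (SimpleGraph.fromEdgeSet M).chromaticNumber) ∅ ∅ ∧
        NearlyColorable (H j) (r - 1) ε := by
  obtain ⟨k, rfl⟩ : ∃ k, r = k + 1 := ⟨r - 1, by omega⟩
  have hk : 2 ≤ k := by omega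
  simp only [Nat.add_sub_cancel]
  exact structure_core hb hk hε G hG

end Pool.Agent.Results.MP_6966bf_co.BreakerStructure
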