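import Mathlib
import Pool.Agent.Helper70.GameDefs
import Pool.Agent.Helper70.FracGame

set_option autoImplicit false

namespace Pool.Agent.Results.MP_6966bf_co.FractionalGame

open Pool.Agent.Helper70

theorem makerWins_imp {V : Type} {G : SimpleGraph V} {b : ℕ} {goal goal' : Set (Sym2 V) → Prop}
    (h : ∀ M, goal M → goal' M) {M B : Set (Sym2 V)} (hw : MakerWins G b goal M B) :
    MakerWins G b goal' M B := by
  induction hw with
  | finish M B hMB hg => exact MakerWins.finish M B hMB (h M hg)
  | move M B e he heM heB _ ih => exact MakerWins.move M B e he heM heB ih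

/-- The fractional form of the question: on every graph whose fractional chromatic number is larger
than `2 r ⌈4 b (log (2 r) + 1) / log 2⌉` Maker wins the `(1 : b)` game with target
`χ_f(M) > r`, and hence also `χ(M) > r`. -/
theorem result (b r : ℕ) (hb : 1 ≤ b) (hr : 1 ≤ r) (V : Type) [Fintype V] (G : SimpleGraph V)
    (hG : 2 * (r : ℝ) * ⌈4 * b * (Real.log (2 * r) + 1) / Real.log 2⌉₊ < fracChromatic G) :
    MakerWins G b
      (fun M => (r : ℝ) < fracChromatic (SimpleGraph.fromEdgeSet M) ∧
        (r : ℕ∞) < (SimpleGraph.fromEdgeSet M).chromaticNumber) ∅ ∅ := by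
  refine makerWins_imp ?_ (frac_core hb hr G hG)
  intro M hM
  refine ⟨hM, ?_⟩
  by_contra hcon
  push Not at hcon
  rw [SimpleGraph.chromaticNumber_le_iff_colorable] at hcon
  have := fracChromatic_le_of_colorable _ hr hcon
  unfold fracGoal at hM
  linarith

end Pool.Agent.Results.MP_6966bf_co.FractionalGame
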