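import Mathlib
import Pool.Agent.Helper70.GameDefs
import Pool.Agent.Helper40.LD.Main

set_option autoImplicit false

namespace Pool.Agent.Results.MP_6966bf_co.LogDegree

open Pool.Agent.Helper70

/-- Let `F` be a graph of maximum degree at most `Δ` and let `G` contain the `a`-fold blow-up of `F`
(every vertex `X` of `F` is replaced by `a` vertices `φ (X, i)` of `G`, and edges of `F` by complete
bipartite graphs; for `a = 1`, `G` contains `F`).  If the chromatic number of `F` is larger than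
`4 (r - 1) ⌈b log₂ (8 (r - 1) ^ a (Δ + 1) ^ 3) / ⌈a / (r - 1)⌉ ^ 2⌉`, then Maker wins the `(1 : b)` game
on `G` with target `χ(M) ≥ r`. -/
theorem result (b r Δ a : ℕ) (hb : 1 ≤ b) (hr : 2 ≤ r) (ha : 1 ≤ a) (U V : Type) [Fintype U]
    [Fintype V] (F : SimpleGraph U) (G : SimpleGraph V) (φ : U × Fin a → V)
    (hinj : Function.Injective φ)
    (hφ : ∀ X Y i j, F.Adj X Y → G.Adj (φ (X, i)) (φ (Y, j)))
    (hΔ : ∀ X, (F.neighborSet X).ncard ≤ Δ)
    (hχ : ((4 * (r - 1) *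
        ⌈b * Real.logb 2 (8 * ((r - 1 : ℕ) : ℝ) ^ a * ((Δ : ℝ) + 1) ^ 3) /
          (⌈(a : ℝ) / ((r - 1 : ℕ) : ℝ)⌉₊ : ℝ) ^ 2⌉₊ : ℕ) : ℕ∞) < F.chromaticNumber) :
    MakerWins G b (fun M => (r : ℕ∞) ≤ (SimpleGraph.fromEdgeSet M).chromaticNumber) ∅ ∅ := by
  classical
  obtain ⟨k, rfl⟩ : ∃ k, r = k + 1 := ⟨r - 1, by omega⟩
  have hk : 1 ≤ k := by omega
  simp only [Nat.add_sub_cancel] at hχ
  by_contra hlose
  have hcol := Pool.Agent.Helper40.LD.colorable_of_not_makerWins (Δ := Δ) hb hk ha F G ⟨φ, hinj⟩ hφ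
    (by
      intro v
      have h1 := hΔ v
      rw [Set.ncard_eq_toFinset_card'] at h1
      convert h1
      ext w
      simp) hlose
  rw [← SimpleGraph.chromaticNumber_le_iff_colorable] at hcol
  exact absurd hχ (not_lt.2 hcol)

end Pool.Agent.Results.MP_6966bf_co.LogDegree
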