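import Mathlib
import Pool.Agent.Helper70.GameDefs
import Pool.Agent.Helper40.KS.Main

set_option autoImplicit false

namespace Pool.Agent.Results.MP_6966bf_co.SchrijverGraphs

open Pool.Agent.Helper70 Pool.Agent.Helper40.KS

/-- Q1 holds for all graphs that contain a Schrijver graph of large chromatic number, in particular for
all Kneser graphs: if `G` contains `SG(n, m)`, where
`n - 2 m ≥ 4 b (r - 1) ^ 2 (5 + ⌈log₂ (r - 1)⌉) + r + 1`, then Maker wins the `(1 : b)` game on `G` with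
target `χ(M) ≥ r`. -/
theorem result (b r n m : ℕ) (hb : 1 ≤ b) (hr : 2 ≤ r) (hm : 1 ≤ m)
    (hn : 2 * m + 4 * b * (r - 1) ^ 2 * (5 + Nat.clog 2 (r - 1)) + r + 1 ≤ n)
    (V : Type) [Fintype V] (G : SimpleGraph V) (hG : (schrijverGraph n m).IsContained G) :
    MakerWins G b (fun M => (r : ℕ∞) ≤ (SimpleGraph.fromEdgeSet M).chromaticNumber) ∅ ∅ := by
  obtain ⟨k, rfl⟩ : ∃ k, r = k + 1 := ⟨r - 1, by omega⟩
  simp only [Nat.add_sub_cancel] at hn
  obtain ⟨φ⟩ := hG
  refine makerWins_schrijver hb (by omega) hm ?_ G (fun X => φ X) φ.injective ?_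
  · have h1 : 2 * (b * k ^ 2 * (10 + 2 * Nat.clog 2 k) + 1)
        = 4 * b * k ^ 2 * (5 + Nat.clog 2 k) + 2 := by ring
    omega
  · intro X Y hXY
    refine φ.toHom.map_adj ⟨?_, hXY⟩
    rintro rfl
    have h1 : X.1 = ∅ := by
      rw [← Finset.bot_eq_empty, ← disjoint_self]
      exact hXY
    have h2 := X.2.1
    rw [h1, Finset.card_empty] at h2
    omega

end Pool.Agent.Results.MP_6966bf_co.SchrijverGraphs
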